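import Pool.Agent.N206.CG.Stm2

/-!
Project CG (MP_216434_al): the subgroup `Hs` has trivial core and infinite index.
-/

namespace Pool.Agent.N862.CG

open Classical Pool.Agent.N206.CG

variable {L : Loc}

/-- section at the base letter of a conjugate of an element with trivial root -/
theorem sec_conj (S : Sys L) (n : ℕ) (d g : S.D n) (x : L.E n) (h1 : S.root n d = 1) :
    S.sec n (g * d * g⁻¹) (S.root n g x) = S.sec n g x * S.sec n d x * (S.sec n g x)⁻¹ := by
  rw [S.sec_mul, S.sec_inv', S.sec_mul, map_inv]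
  simp [h1]

theorem t_HCORE {L : Loc} (S : Sys L) (h : HRules S) : S_HCORE S := by
  intro N hN hle
  have key := S.faith (fun n => {d | ∀ g : S.D n, ∃ b, S.HH n b (g * d * g⁻¹)}) (by
    intro n d hd
    have h1 : S.root n d = 1 := by
      obtain ⟨b, hb⟩ := hd 1
      have := ((h.unf n b _).1 hb).1
      simpa using this
    refine ⟨h1, ?_⟩
    intro x g'
    obtain ⟨r, hr, hrx⟩ := L.trans n x (L.z n)
    obtain ⟨b, hb⟩ := hd (S.mkk n (fun y => if y = x then g' else 1) ⟨r, hr⟩)
    have h2 := ((h.unf n b _).1 hb).2.1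
    have h3 : S.root n (S.mkk n (fun y => if y = x then g' else 1) ⟨r, hr⟩) x = L.z n := by
      rw [S.root_mk]; exact hrx
    have h4 := sec_conj S n d (S.mkk n (fun y => if y = x then g' else 1) ⟨r, hr⟩) x h1
    rw [h3, S.sec_mk, if_pos rfl] at h4
    rw [h4] at h2
    exact ⟨b, h2⟩)
  rw [Subgroup.eq_bot_iff_forall]
  intro d hd
  refine key 0 d ?_
  intro g
  exact (h.mem _).1 (hle (hN.conj_mem d hd g))

theorem sp_inj {L : Loc} (S : Sys L) (b : L.B) (hb : S.sp 0 b = 1) : b = 1 := by
  have h1 : ∀ m, S.sp m b = 1 := by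
    intro m
    induction m with
    | zero => exact hb
    | succ m ih => rw [← S.sec_sp_z m b, ih, S.sec_one]
  apply L.rho_inj 1 b
  intro n hn
  obtain ⟨m, rfl⟩ : ∃ m, n = m + 1 := ⟨n - 1, by omega⟩
  obtain ⟨x, hx, _⟩ := L.X_two m
  have h2 := S.sec_sp_X m b x hx
  rw [h1 m, S.sec_one] at h2
  have h3 := congrArg (S.root (m + 1)) h2
  rw [S.root_rt, map_one] at h3
  exact h3.symm

theorem t_HINF {L : Loc} (S : Sys L) (h : S_HCORE S) : S_HINF S := by
  unfold S_HINF
  by_contra hc
  rw [not_infinite_iff_finite] at hc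
  have h1 : S.Hs.FiniteIndex := Subgroup.finiteIndex_of_finite_quotient
  have h2 : S.Hs.normalCore.FiniteIndex := inferInstance
  have h3 : S.Hs.normalCore = ⊥ := h _ inferInstance (Subgroup.normalCore_le _)
  rw [h3] at h2
  have h4 : Nat.card (S.D 0) ≠ 0 := by
    rw [← Subgroup.index_bot]; exact h2.index_ne_zero
  have h5 : Finite (S.D 0) := Nat.finite_of_card_ne_zero h4
  have h6 : Function.Injective (S.sp 0) := by
    rw [injective_iff_map_eq_one]
    exact fun b hb => sp_inj S b hb
  have h7 : Finite L.B := Finite.of_injective _ h6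
  exact (not_finite_iff_infinite.2 L.B_inf) h7

end Pool.Agent.N862.CG
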